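import Pool.Agent.H27.RD.ST0

/-! # MP_609556_an, module TBG: exponential decay away from a family of expanding sets. helper27
(The structure of the proof and several steps are those of the module TB of helper67.) -/

set_option autoImplicit false

open MeasureTheory Set Filter Topology Metric

namespace Pool.Agent.H27.RD

open Pool.Agent.H91.RD Pool.Agent.H73.RD

/-- comparison with an exponential barrier -/
theorem bar (hR : T_RAD) (hM : T_MP0) {N : ℕ} (hN : 1 ≤ N) {F : ℝ → ℝ} {c m a α A M τ0 τ1 : ℝ}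
    {v : ℝ → E N → ℝ} (x : E N) (hc : 0 < c) (hm : 0 ≤ m) (ha : 0 < a)
    (hA : 0 ≤ A) (hα : c ^ 2 / 4 + c * N / (2 * a) + m ≤ α) (hv : Cls F v)
    (hvM : ∀ t > 0, ∀ x, |v t x| ≤ M) (hτ0 : 0 < τ0)
    (hτ : τ0 < τ1)
    (hf : ∀ s, 0 < s → F s ≤ m * s)
    (h0 : ∀ y, v τ0 y ≤ A * Real.exp (α * τ0 + c / 2 * √(a ^ 2 + ‖y - x‖ ^ 2))) :
    ∀ τ ∈ Icc τ0 τ1, ∀ y, v τ y ≤ A * Real.exp (α * τ + c / 2 * √(a ^ 2 + ‖y - x‖ ^ 2)) := by
  intro τ hτm y
  obtain ⟨r, hr⟩ : ∃ r : E N → ℝ, r = fun y => √(a ^ 2 + ‖y - x‖ ^ 2) := ⟨_, rfl⟩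
  have hra : ∀ y, a ≤ r y := fun y => by rw [hr]; exact le_rad x y
  have hrc : Continuous r := by rw [hr]; exact continuous_rad a x
  have key := hM N m τ0 τ1 M (fun τ y => A * Real.exp (α * τ + c / 2 * r y) - v τ y) hm hτ
    ?_ ?_ ?_ ?_ τ hτm y
  · simp only [hr] at key
    linarith
  · apply ContinuousOn.sub
    · have h1 : Continuous (fun p : ℝ × E N => A * Real.exp (α * p.1 + c / 2 * r p.2)) := by
        have h2 : Continuous (fun p : ℝ × E N => r p.2) := hrc.comp continuous_snd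
        fun_prop
      exact h1.continuousOn
    · exact hv.cont.mono (by
        rintro ⟨p, q⟩ ⟨hp, hq⟩
        exact ⟨lt_of_lt_of_le hτ0 hp.1, hq⟩)
  · intro t ht y
    have h1 := (abs_le.1 (hvM t (lt_of_lt_of_le hτ0 ht.1) y)).2
    have h2 : 0 ≤ A * Real.exp (α * t + c / 2 * r y) := by positivity
    linarith
  · intro t ht y hz
    have htp : 0 < t := lt_trans hτ0 ht.1
    have hS2 : ContDiff ℝ 2 (fun ρ => A * Real.exp (α * t + c / 2 * ρ)) := by fun_prop
    have hSr := hR N a x (fun ρ => A * Real.exp (α * t + c / 2 * ρ)) ha hS2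
    have hd1 := hv.dt t htp y
    have hd2 : HasDerivAt (fun s => A * Real.exp (α * s + c / 2 * r y))
        (α * (A * Real.exp (α * t + c / 2 * r y))) t := by
      have h2 : HasDerivAt (fun s : ℝ => α * s + c / 2 * r y) α t := by
        have := ((hasDerivAt_id t).const_mul α).add_const (c / 2 * r y)
        rw [mul_one] at this
        exact this
      have h3 := (h2.exp).const_mul A
      have h4 : A * (Real.exp (α * t + c / 2 * r y) * α) =
          α * (A * Real.exp (α * t + c / 2 * r y)) := by ring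
      rw [h4] at h3
      exact h3
    refine ⟨?_, ?_, ?_⟩
    · have h := hSr.1.contDiffAt (x := y)
      rw [hr]
      exact h.sub (hv.c2 _ htp).contDiffAt
    · exact hd2.differentiableAt.sub hd1
    · have e0 : Laplacian.laplacian (fun y => A * Real.exp (α * t + c / 2 * r y) - v t y) y
          = radL N a (fun ρ => A * Real.exp (α * t + c / 2 * ρ)) (r y)
            - Laplacian.laplacian (v t) y := by
        rw [hr]
        have h := hSr.2 y
        rw [← h]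
        exact lap_sub hSr.1.contDiffAt (hv.c2 _ htp).contDiffAt
      rw [e0]
      have e1 : deriv (fun s => A * Real.exp (α * s + c / 2 * r y) - v s y) t
          = α * (A * Real.exp (α * t + c / 2 * r y)) - deriv (fun s => v s y) t :=
        (hd2.sub hd1.hasDerivAt).deriv
      rw [e1, hv.eqn t htp y]
      obtain ⟨B, hB⟩ : ∃ B : ℝ, B = A * Real.exp (α * t + c / 2 * r y) := ⟨_, rfl⟩
      have hB0 : 0 ≤ B := by rw [hB]; positivity
      have h1 := radL_exp N hN a c B (r y) hc ha (hra y) A (α * t) hA hB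
      simp only [← hB] at hz ⊢
      have h2 : F (v t y) ≤ m * v t y := hf _ (by linarith)
      have h3 : (c ^ 2 / 4 + c * N / (2 * a) + m) * B ≤ α * B :=
        mul_le_mul_of_nonneg_right hα hB0
      linarith
  · intro y
    have := h0 y
    simp only [hr]
    linarith

/-- points outside an expanding family are far from its earlier members (helper67) -/
theorem far {N : ℕ} {c C t3 : ℝ} {I : ℝ → Set (E N)} (hE : Expd c C t3 I) {t s : ℝ}
    (ht : t3 ≤ t) (hs : C ≤ s) (hs0 : 0 ≤ c * s - C * √s) {x p : E N}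
    (hx : 0 < infDist x (I (t + s))) (hp : p ∈ I t) :
    infDist x (I (t + s)) + (c * s - C * √s) ≤ dist x p := by
  by_contra hcon
  push Not at hcon
  set ρ := c * s - C * √s with hρ
  have hin : ∀ q, dist p q ≤ ρ → q ∈ I (t + s) := fun q hq => hE t ht s hs p hp q hq
  rcases le_or_gt (dist x p) ρ with h | h
  · have h1 : x ∈ I (t + s) := hin x (by rwa [dist_comm])
    rw [infDist_zero_of_mem h1] at hx
    exact lt_irrefl _ hx
  · have hd : 0 < dist x p := lt_of_le_of_lt hs0 h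
    set q := AffineMap.lineMap p x (ρ / dist x p) with hq
    have h1 : dist p q = ρ := by
      rw [hq, dist_left_lineMap, Real.norm_of_nonneg (by positivity), dist_comm p x]
      field_simp
    have h2 : dist x q = dist x p - ρ := by
      rw [hq, dist_right_lineMap, Real.norm_of_nonneg]
      · rw [dist_comm p x]; field_simp
      · rw [sub_nonneg, div_le_one hd]; exact h.le
    have h3 := infDist_le_dist_of_mem (x := x) (hin q h1.le)
    rw [h2] at h3
    linarith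

/-- the properties of the profile -/
structure Prof (f : ℝ → ℝ) (c θ c1 κ Cx Lm Z2 : ℝ) (χ : ℝ → ℝ) : Prop where
  c1p : 0 < c1
  c1c : c1 < c
  κp : 0 < κ
  C1 : 1 ≤ Cx
  Lp : 0 < Lm
  Z0 : 0 ≤ Z2
  c2 : ContDiff ℝ 2 χ
  zero : χ 0 = θ
  dec : ∀ Z ≥ 0, deriv χ Z < 0
  sup : ∀ Z ≥ 0, κ * |deriv χ Z| ≤ -(c1 * deriv χ Z) - deriv (deriv χ) Z - f (χ Z)
  d2 : ∀ Z ≥ 0, |deriv (deriv χ) Z| ≤ Cx * |deriv χ Z|
  conv : ∀ Z ≥ 0, Z2 ≤ Z → 0 ≤ deriv (deriv χ) Z
  low : ∀ Z ≥ 0, Cx⁻¹ * Real.exp (-(Lm * Z)) ≤ χ Z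
  up : ∀ Z ≥ 0, χ Z ≤ Cx * Real.exp (-(c / 2 * Z))

theorem Prof.le {f : ℝ → ℝ} {c θ c1 κ Cx Lm Z2 : ℝ} {χ : ℝ → ℝ}
    (h : Prof f c θ c1 κ Cx Lm Z2 χ) {Z : ℝ} (hZ : 0 ≤ Z) : χ Z ≤ θ := by
  have hd : Differentiable ℝ χ := h.c2.differentiable (by norm_num)
  have h1 : AntitoneOn χ (Ici 0) := by
    refine antitoneOn_of_deriv_nonpos (convex_Ici 0) hd.continuous.continuousOn
      hd.differentiableOn fun z hz => ?_
    rw [interior_Ici] at hz
    exact (h.dec z (le_of_lt hz)).le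
  have h2 := h1 (show (0 : ℝ) ∈ Ici 0 from self_mem_Ici) (show Z ∈ Ici 0 from hZ) hZ
  rwa [h.zero] at h2

theorem Prof.pos {f : ℝ → ℝ} {c θ c1 κ Cx Lm Z2 : ℝ} {χ : ℝ → ℝ}
    (h : Prof f c θ c1 κ Cx Lm Z2 χ) {Z : ℝ} (hZ : 0 ≤ Z) : 0 < χ Z := by
  refine lt_of_lt_of_le ?_ (h.low Z hZ)
  have := h.C1
  positivity

/-- the differential inequality for the barrier -/
theorem ineq {N : ℕ} (hN : 1 ≤ N) {f : ℝ → ℝ} {c θ c1 κ Cx Lm Z2 : ℝ} {χ : ℝ → ℝ}
    (h : Prof f c θ c1 κ Cx Lm Z2 χ) {a r q Z : ℝ} (ha : 0 < a) (haN : N / a ≤ κ / 2)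
    (har : a ≤ r) (hZ : 0 ≤ Z) (hq : Z = q - r)
    (hfar : 0 < q - Z2 ∧ Cx * a ^ 2 ≤ κ / 2 * (q - Z2) ^ 2) :
    radL N a (fun ρ => χ (q - ρ)) r + f (χ Z) ≤ -(c1 * deriv χ Z) := by
  have hd : Differentiable ℝ χ := h.c2.differentiable (by norm_num)
  have hd1 : ContDiff ℝ 1 (deriv χ) := by
    have h' := h.c2
    rw [show (2 : WithTop ℕ∞) = 1 + 1 by norm_num, contDiff_succ_iff_deriv] at h'
    exact h'.2.2
  have hdd : Differentiable ℝ (deriv χ) := hd1.differentiable (by norm_num)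
  have e1 : deriv (fun ρ => χ (q - ρ)) = fun ρ => -deriv χ (q - ρ) := by
    funext ρ
    have h1 : HasDerivAt (fun ρ : ℝ => q - ρ) (-1) ρ := by
      simpa using (hasDerivAt_id ρ).const_sub q
    have h2 := (hd (q - ρ)).hasDerivAt.comp ρ h1
    have h3 : deriv (fun ρ => χ (q - ρ)) ρ = deriv χ (q - ρ) * -1 := h2.deriv
    rw [h3]
    ring
  have e2 : deriv (fun ρ => -deriv χ (q - ρ)) = fun ρ => deriv (deriv χ) (q - ρ) := by
    funext ρ
    have h1 : HasDerivAt (fun ρ : ℝ => q - ρ) (-1) ρ := by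
      simpa using (hasDerivAt_id ρ).const_sub q
    have h2 := ((hdd (q - ρ)).hasDerivAt.comp ρ h1).neg
    have h3 : deriv (fun ρ => -deriv χ (q - ρ)) ρ = -(deriv (deriv χ) (q - ρ) * -1) := h2.deriv
    rw [h3]
    ring
  unfold radL
  rw [e1, e2]
  simp only
  rw [← hq]
  have hr : 0 < r := by linarith
  obtain ⟨p, hp⟩ : ∃ p : ℝ, p = -deriv χ Z := ⟨_, rfl⟩
  have hp0 : 0 < p := by rw [hp]; linarith [h.dec Z hZ]
  have habs : |deriv χ Z| = p := by rw [hp, abs_of_neg (h.dec Z hZ)]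
  have hs := h.sup Z hZ
  have h2 := h.d2 Z hZ
  rw [habs] at hs h2
  have hN1 : (0 : ℝ) ≤ N - 1 := by
    have : (1 : ℝ) ≤ N := by exact_mod_cast hN
    linarith
  have hA : ((N : ℝ) - 1) / r + a ^ 2 / r ^ 3 ≤ κ / 2 := by
    have h6 : ((N : ℝ) - 1) / r ≤ (N - 1) / a := div_le_div_of_nonneg_left hN1 ha har
    have h7 : a ^ 2 / r ^ 3 ≤ 1 / a := by
      rw [div_le_div_iff₀ (by positivity) ha, one_mul]
      have : a ^ 3 ≤ r ^ 3 := pow_le_pow_left₀ ha.le har 3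
      calc a ^ 2 * a = a ^ 3 := by ring
        _ ≤ r ^ 3 := this
    have h8 : ((N : ℝ) - 1) / a + 1 / a = N / a := by ring
    linarith
  have hd' : deriv χ Z = -p := by rw [hp, neg_neg]
  rw [hd'] at hs ⊢
  rw [neg_neg]
  have h3 : p * (((N : ℝ) - 1) / r + a ^ 2 / r ^ 3) ≤ p * (κ / 2) :=
    mul_le_mul_of_nonneg_left hA hp0.le
  have h4 : -(deriv (deriv χ) Z * (a ^ 2 / r ^ 2)) ≤ κ / 2 * p := by
    rcases le_or_gt Z2 Z with h5 | h5
    · have h6 := h.conv Z hZ h5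
      have h7 : 0 ≤ deriv (deriv χ) Z * (a ^ 2 / r ^ 2) := by positivity
      have h8 : 0 ≤ κ / 2 * p := by have := h.κp; positivity
      linarith
    · have h6 : q - Z2 ≤ r := by linarith
      have h7 : Cx * a ^ 2 ≤ κ / 2 * r ^ 2 := by
        refine hfar.2.trans ?_
        have h8 : (q - Z2) ^ 2 ≤ r ^ 2 := pow_le_pow_left₀ hfar.1.le h6 2
        have := h.κp
        exact mul_le_mul_of_nonneg_left h8 (by positivity)
      have h8 : Cx * (a ^ 2 / r ^ 2) ≤ κ / 2 := by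
        rw [← mul_div_assoc, div_le_iff₀ (by positivity)]
        exact h7
      have h9 : 0 ≤ a ^ 2 / r ^ 2 := by positivity
      have h10 := neg_le_of_abs_le h2
      calc -(deriv (deriv χ) Z * (a ^ 2 / r ^ 2)) = (-deriv (deriv χ) Z) * (a ^ 2 / r ^ 2) := by
            ring
        _ ≤ (Cx * p) * (a ^ 2 / r ^ 2) := mul_le_mul_of_nonneg_right (by linarith) h9
        _ = (Cx * (a ^ 2 / r ^ 2)) * p := by ring
        _ ≤ κ / 2 * p := mul_le_mul_of_nonneg_right h8 hp0.le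
  have e3 : deriv (deriv χ) Z * (1 - a ^ 2 / r ^ 2) =
      deriv (deriv χ) Z - deriv (deriv χ) Z * (a ^ 2 / r ^ 2) := by ring
  rw [e3]
  linarith

/-- comparison with the profile -/
theorem stage1 (hR : T_RAD) (hMP : T_MP0) {N : ℕ} (hN : 1 ≤ N) {f F : ℝ → ℝ}
    {c θ c1 κ Cx Lm Z2 K M : ℝ} {χ : ℝ → ℝ} (h : Prof f c θ c1 κ Cx Lm Z2 χ) (hθ : θ < 1)
    (hK : 0 ≤ K) (hF : ∀ a b, |F a - F b| ≤ K * |a - b|) (hFf : ∀ s ∈ Icc (0 : ℝ) 1, F s = f s)
    {v : ℝ → E N → ℝ} (hv : Cls F v) (hM : 1 ≤ M) (hvM : ∀ t > 0, ∀ x, |v t x| ≤ M)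
    {a q τ0 τ1 : ℝ} (x : E N) (ha : 0 < a) (haN : N / a ≤ κ / 2) (hτ0 : 0 < τ0) (hτ : τ0 < τ1)
    (hfar : ∀ τ ∈ Icc τ0 τ1, 0 < (q - c1 * τ) - Z2 ∧
      Cx * a ^ 2 ≤ κ / 2 * ((q - c1 * τ) - Z2) ^ 2)
    (hlow : ∀ τ ∈ Icc τ0 τ1, ∀ y, q - c1 * τ - √(a ^ 2 + ‖y - x‖ ^ 2) ≤ 0 →
      v τ y ≤ θ + M * (√(a ^ 2 + ‖y - x‖ ^ 2) - (q - c1 * τ)))
    (h0 : ∀ y, 0 ≤ q - c1 * τ0 - √(a ^ 2 + ‖y - x‖ ^ 2) →
      v τ0 y ≤ χ (q - c1 * τ0 - √(a ^ 2 + ‖y - x‖ ^ 2))) :
    ∀ τ ∈ Icc τ0 τ1, ∀ y, 0 ≤ q - c1 * τ - √(a ^ 2 + ‖y - x‖ ^ 2) →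
      v τ y ≤ χ (q - c1 * τ - √(a ^ 2 + ‖y - x‖ ^ 2)) := by
  intro τ hτm y hZ
  obtain ⟨r, hr⟩ : ∃ r : E N → ℝ, r = fun y => √(a ^ 2 + ‖y - x‖ ^ 2) := ⟨_, rfl⟩
  have hra : ∀ y, a ≤ r y := fun y => by rw [hr]; exact le_rad x y
  have hrc : Continuous r := by rw [hr]; exact continuous_rad a x
  have hre : ∀ y, √(a ^ 2 + ‖y - x‖ ^ 2) = r y := fun y => by rw [hr]
  simp only [hre] at hlow h0 hZ ⊢
  obtain ⟨Zf, hZf⟩ : ∃ Zf : ℝ → E N → ℝ, Zf = fun τ y => q - c1 * τ - r y := ⟨_, rfl⟩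
  have hZc : Continuous fun p : ℝ × E N => Zf p.1 p.2 := by
    rw [hZf]
    have h2 : Continuous (fun p : ℝ × E N => r p.2) := hrc.comp continuous_snd
    fun_prop
  have hχc : Continuous χ := h.c2.continuous
  have hM0 : 0 ≤ M := by linarith
  have key := hMP N K τ0 τ1 M (fun τ y => χ (max (Zf τ y) 0) + M * max (-Zf τ y) 0 - v τ y) hK hτ
    ?_ ?_ ?_ ?_ τ hτm y
  · have e : Zf τ y = q - c1 * τ - r y := by rw [hZf]
    simp only [e, max_eq_left hZ, max_eq_right (neg_nonpos.2 hZ), mul_zero, add_zero] at key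
    linarith
  · refine ContinuousOn.sub ?_ (hv.cont.mono ?_)
    · refine (Continuous.add ?_ ?_).continuousOn
      · exact hχc.comp (hZc.max continuous_const)
      · exact continuous_const.mul (hZc.neg.max continuous_const)
    · rintro ⟨p, q⟩ ⟨hp, hq⟩
      exact ⟨lt_of_lt_of_le hτ0 hp.1, hq⟩
  · intro t ht y
    have h1 := (abs_le.1 (hvM t (lt_of_lt_of_le hτ0 ht.1) y)).2
    have h2 : 0 < χ (max (Zf t y) 0) := h.pos (le_max_right _ _)
    have h3 : 0 ≤ M * max (-Zf t y) 0 := mul_nonneg hM0 (le_max_right _ _)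
    linarith
  · intro t ht y hz
    have htp : 0 < t := lt_trans hτ0 ht.1
    have htm : t ∈ Icc τ0 τ1 := ⟨ht.1.le, ht.2⟩
    have hZp : 0 < Zf t y := by
      by_contra hcon
      push Not at hcon
      have h1 := hlow t htm y (by rw [hZf] at hcon; exact hcon)
      have e : Zf t y = q - c1 * t - r y := by rw [hZf]
      rw [max_eq_right hcon, max_eq_left (by linarith), h.zero, e] at hz
      linarith
    have hev : (fun y' => χ (max (Zf t y') 0) + M * max (-Zf t y') 0 - v t y') =ᶠ[𝓝 y]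
        fun y' => χ ((q - c1 * t) - r y') - v t y' := by
      have hc' : Continuous fun y' => Zf t y' := hZc.comp (by fun_prop : Continuous fun y' : E N =>
        (t, y'))
      filter_upwards [hc'.continuousAt.eventually_mem (isOpen_Ioi.mem_nhds hZp)] with y' hy'
      have hy'' : 0 < Zf t y' := hy'
      rw [max_eq_left hy''.le, max_eq_right (neg_nonpos.2 hy''.le), mul_zero, add_zero, hZf]
    have hev2 : (fun s => χ (max (Zf s y) 0) + M * max (-Zf s y) 0 - v s y) =ᶠ[𝓝 t]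
        fun s => χ ((q - c1 * s) - r y) - v s y := by
      have hc' : Continuous fun s => Zf s y := hZc.comp (by fun_prop : Continuous fun s : ℝ =>
        (s, y))
      filter_upwards [hc'.continuousAt.eventually_mem (isOpen_Ioi.mem_nhds hZp)] with s hs
      have hs' : 0 < Zf s y := hs
      rw [max_eq_left hs'.le, max_eq_right (neg_nonpos.2 hs'.le), mul_zero, add_zero, hZf]
    have hS2 : ContDiff ℝ 2 (fun ρ => χ ((q - c1 * t) - ρ)) :=
      h.c2.comp (contDiff_const.sub contDiff_id)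
    have hSr := hR N a x (fun ρ => χ ((q - c1 * t) - ρ)) ha hS2
    simp only [hre] at hSr
    have hd1 := hv.dt t htp y
    have hd : Differentiable ℝ χ := h.c2.differentiable (by norm_num)
    obtain ⟨Z, hZe⟩ : ∃ Z : ℝ, Z = (q - c1 * t) - r y := ⟨_, rfl⟩
    have hZZ : Zf t y = Z := by rw [hZf, hZe]
    have hd2 : HasDerivAt (fun s => χ ((q - c1 * s) - r y)) (-(c1 * deriv χ Z)) t := by
      have h2 : HasDerivAt (fun s : ℝ => (q - c1 * s) - r y) (-c1) t := by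
        have := (((hasDerivAt_id t).const_mul c1).const_sub q).sub_const (r y)
        simpa using this
      have h3 := (hd ((q - c1 * t) - r y)).hasDerivAt.comp t h2
      rw [← hZe] at h3
      have e : deriv χ Z * -c1 = -(c1 * deriv χ Z) := by ring
      rw [← e]
      exact h3
    refine ⟨?_, ?_, ?_⟩
    · refine ContDiffAt.congr_of_eventuallyEq ?_ hev
      exact hSr.1.contDiffAt.sub (hv.c2 _ htp).contDiffAt
    · exact (hd2.differentiableAt.sub hd1).congr_of_eventuallyEq hev2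
    · have e0 : Laplacian.laplacian (fun y' => χ (max (Zf t y') 0) + M * max (-Zf t y') 0 - v t y') y
          = radL N a (fun ρ => χ ((q - c1 * t) - ρ)) (r y) - Laplacian.laplacian (v t) y := by
        rw [(InnerProductSpace.laplacian_congr_nhds hev).eq_of_nhds, ← hSr.2 y]
        exact lap_sub hSr.1.contDiffAt (hv.c2 _ htp).contDiffAt
      have e1 : deriv (fun s => χ (max (Zf s y) 0) + M * max (-Zf s y) 0 - v s y) t
          = -(c1 * deriv χ Z) - deriv (fun s => v s y) t := by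
        rw [hev2.deriv_eq]
        exact (hd2.sub hd1.hasDerivAt).deriv
      have e2 : χ (max (Zf t y) 0) + M * max (-Zf t y) 0 - v t y = χ Z - v t y := by
        rw [max_eq_left hZp.le, max_eq_right (neg_nonpos.2 hZp.le), mul_zero, add_zero, hZZ]
      rw [e2] at hz ⊢
      rw [e0, e1, hv.eqn t htp y]
      rw [hZZ] at hZp
      have h1 := ineq hN h ha haN (hra y) hZp.le hZe (hfar t htm)
      have h2 : F (χ Z) = f (χ Z) := hFf _ ⟨(h.pos hZp.le).le, (h.le hZp.le).trans hθ.le⟩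
      have h3 := (abs_le.1 (hF (v t y) (χ Z))).2
      rw [abs_of_pos (by linarith), h2] at h3
      linarith
  · intro y
    have e : Zf τ0 y = q - c1 * τ0 - r y := by rw [hZf]
    rcases le_total (Zf τ0 y) 0 with hn | hp
    · have h1 := hlow τ0 ⟨le_rfl, hτ.le⟩ y (by rw [← e]; exact hn)
      rw [max_eq_right hn, max_eq_left (by linarith), h.zero, e]
      linarith
    · have h1 := h0 y (by rw [← e]; exact hp)
      rw [max_eq_left hp, max_eq_right (neg_nonpos.2 hp), mul_zero, add_zero, e]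
      linarith

theorem tbg (prof : T_PROF) (mp0 : T_MP0) (rad : T_RAD) : T_TBG := by
  intro N f F φ c lam K k μ η0 θ U v I hN hyp hF hFf hUne hv hgauss C t3 L0 S T hC ht3 hE hUI
    hL0 hS hT hbelow
  have hc : 0 < c := hyp.front.cpos
  have hK : 0 < K := hyp.toLip.K0
  obtain ⟨c1, κ, Cx, Lm, Z2, χ, hc1, hc1c, hκ, hCx, hLm, hZ2, hχ2, hχ0, hχ⟩ :=
    prof f φ c lam K k μ η0 θ hyp
  have hp : Prof f c θ c1 κ Cx Lm Z2 χ :=
    ⟨hc1, hc1c, hκ, hCx, hLm, hZ2, hχ2, hχ0, fun Z hZ => (hχ Z hZ).1,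
      fun Z hZ => (hχ Z hZ).2.1, fun Z hZ => (hχ Z hZ).2.2.1, fun Z hZ => (hχ Z hZ).2.2.2.1,
      fun Z hZ => (hχ Z hZ).2.2.2.2.1, fun Z hZ => (hχ Z hZ).2.2.2.2.2⟩
  obtain ⟨M0, hM0⟩ := hv.bdd
  obtain ⟨M, hM⟩ : ∃ M : ℝ, M = max M0 1 := ⟨_, rfl⟩
  have hM1 : 1 ≤ M := by rw [hM]; exact le_max_right _ _
  have hvM : ∀ t > 0, ∀ x, |v t x| ≤ M := fun t ht x => (hM0 t ht x).trans (by
    rw [hM]; exact le_max_left _ _)
  -- constants
  obtain ⟨C1, hC1⟩ : ∃ C1 : ℝ, C1 = C ^ 2 / (4 * (c - c1)) := ⟨_, rfl⟩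
  have hcc : 0 < c - c1 := by linarith
  have hC1p : 0 < C1 := by rw [hC1]; positivity
  have quad : ∀ s, 0 ≤ s → c1 * s - C1 ≤ c * s - C * √s := by
    intro s hs
    have h1 : √s ^ 2 = s := Real.sq_sqrt hs
    have h2 : 0 ≤ (c - c1) * (√s - C / (2 * (c - c1))) ^ 2 := by positivity
    have h3 : (c - c1) * (√s - C / (2 * (c - c1))) ^ 2 = (c - c1) * √s ^ 2 - C * √s + C1 := by
      rw [hC1]; field_simp; ring
    rw [h3, h1] at h2
    linarith
  obtain ⟨a, ha⟩ : ∃ a : ℝ, a = max 1 (2 * N / κ) := ⟨_, rfl⟩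
  have ha1 : 1 ≤ a := by rw [ha]; exact le_max_left _ _
  have ha0 : 0 < a := by linarith
  have haN : N / a ≤ κ / 2 := by
    have h1 : 2 * N / κ ≤ a := by rw [ha]; exact le_max_right _ _
    rw [div_le_iff₀ hκ] at h1
    rw [div_le_div_iff₀ ha0 (by norm_num)]
    linarith
  -- s1
  obtain ⟨s1, hs1⟩ : ∃ s1 : ℝ, s1 = max C ((C / c) ^ 2) := ⟨_, rfl⟩
  have hs1C : C ≤ s1 := by rw [hs1]; exact le_max_left _ _
  have hs1p : 0 < s1 := by linarith
  have hsq : ∀ s ≥ s1, 0 ≤ c * s - C * √s := by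
    intro s hs
    have hs2 : (C / c) ^ 2 ≤ s := le_trans (by rw [hs1]; exact le_max_right _ _) hs
    have hs0 : 0 ≤ s := by linarith
    have h3 : C / c ≤ √s := Real.le_sqrt_of_sq_le hs2
    have h4 : C ≤ c * √s := by rwa [div_le_iff₀' hc] at h3
    have h5 : √s * √s = s := Real.mul_self_sqrt hs0
    nlinarith [Real.sqrt_nonneg s]
  -- T1
  obtain ⟨T1, hT1⟩ : ∃ T1 : ℝ, T1 = max T (t3 + s1) := ⟨_, rfl⟩
  have hT1T : T ≤ T1 := by rw [hT1]; exact le_max_left _ _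
  have hT1s : t3 + s1 ≤ T1 := by rw [hT1]; exact le_max_right _ _
  have hT1p : 0 < T1 := by linarith
  have hne : ∀ t ≥ t3 + s1, (I t).Nonempty := by
    intro t ht
    obtain ⟨y, hy⟩ := hUne
    obtain ⟨p, hp, _⟩ := hUI y hy
    refine ⟨p, ?_⟩
    have h1 := hE t3 le_rfl (t - t3) (by linarith) p hp p (by
      rw [dist_self]; exact hsq _ (by linarith))
    rwa [show t3 + (t - t3) = t by ring] at h1
  obtain ⟨A0, hA0, hT1bd⟩ := hgauss T1 hT1p Lm hLm
  -- L1
  obtain ⟨L1, hL1⟩ : ∃ L1 : ℝ, L1 = max 1 (C + Real.log (A0 * Cx) / Lm) := ⟨_, rfl⟩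
  have hL11 : 1 ≤ L1 := by rw [hL1]; exact le_max_left _ _
  have hL1e : A0 * Real.exp (-(Lm * (L0 + L1 - C))) ≤ Cx⁻¹ := by
    have h1 : C + Real.log (A0 * Cx) / Lm ≤ L1 := by rw [hL1]; exact le_max_right _ _
    have h2 : Real.log (A0 * Cx) ≤ Lm * (L0 + L1 - C) := by
      have h3 : Real.log (A0 * Cx) / Lm ≤ L0 + L1 - C := by linarith
      rwa [div_le_iff₀' hLm] at h3
    have h4 : A0 * Cx ≤ Real.exp (Lm * (L0 + L1 - C)) := by
      rw [← Real.exp_log (show 0 < A0 * Cx by positivity)]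
      exact Real.exp_le_exp.2 h2
    have h5 := Real.exp_pos (Lm * (L0 + L1 - C))
    rw [Real.exp_neg, ← div_eq_mul_inv, div_le_iff₀ h5]
    have h6 : A0 = A0 * Cx * Cx⁻¹ := by field_simp
    calc A0 = A0 * Cx * Cx⁻¹ := h6
      _ ≤ Real.exp (Lm * (L0 + L1 - C)) * Cx⁻¹ :=
          mul_le_mul_of_nonneg_right h4 (by positivity)
      _ = _ := mul_comm _ _
  obtain ⟨r1, hr1⟩ : ∃ r1 : ℝ, r1 = a * √(2 * Cx / κ) := ⟨_, rfl⟩
  have hr1p : 0 < r1 := by rw [hr1]; positivity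
  have hr1e : ∀ z, r1 ≤ z → Cx * a ^ 2 ≤ κ / 2 * z ^ 2 := by
    intro z hz
    have h1 : r1 ^ 2 ≤ z ^ 2 := pow_le_pow_left₀ hr1p.le hz 2
    have h2 : r1 ^ 2 = a ^ 2 * (2 * Cx / κ) := by
      rw [hr1, mul_pow, Real.sq_sqrt (by positivity)]
    rw [h2] at h1
    have h3 := mul_le_mul_of_nonneg_left h1 (show 0 ≤ κ / 2 by positivity)
    refine le_trans (le_of_eq ?_) h3
    field_simp
  obtain ⟨G0, hG0⟩ : ∃ G0 : ℝ, G0 = C1 + L0 + L1 + Z2 + r1 + 1 := ⟨_, rfl⟩
  have hG0p : 0 < G0 := by rw [hG0]; positivity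
  obtain ⟨A', hA'⟩ : ∃ A' : ℝ, A' = max Cx M * Real.exp (c / 2 * (C1 + L0 + L1)) := ⟨_, rfl⟩
  have hA'p : 0 < A' := by
    rw [hA']
    have : 0 < max Cx M := lt_max_of_lt_left (by linarith)
    positivity
  obtain ⟨α2, hα2⟩ : ∃ α2 : ℝ, α2 = c ^ 2 / 4 + c * N / (2 * a) + K := ⟨_, rfl⟩
  have hα2p : 0 < α2 := by rw [hα2]; positivity
  obtain ⟨CT, hCT⟩ : ∃ CT : ℝ, CT = max (M * Real.exp (c / 2 * G0))
    (A' * Real.exp (c / 2 * a + α2 * (S + s1))) := ⟨_, rfl⟩
  have hCTa : M * Real.exp (c / 2 * G0) ≤ CT := by rw [hCT]; exact le_max_left _ _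
  have hCTb : A' * Real.exp (c / 2 * a + α2 * (S + s1)) ≤ CT := by
    rw [hCT]; exact le_max_right _ _
  have hCT1 : 1 ≤ CT := by
    refine le_trans ?_ hCTa
    have : 1 ≤ Real.exp (c / 2 * G0) := Real.one_le_exp (by positivity)
    nlinarith
  refine ⟨CT, T1 + S + s1 + 1, hCT1, by linarith, ?_⟩
  intro t ht x
  have htp : 0 < t := by linarith
  obtain ⟨g, hgdef⟩ : ∃ g : ℝ, g = infDist x (I t) := ⟨_, rfl⟩
  have hg0 : 0 ≤ g := by rw [hgdef]; exact infDist_nonneg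
  rw [← hgdef]
  rcases le_or_gt g G0 with hgG | hgG
  · have h1 := (abs_le.1 (hvM t htp x)).2
    calc v t x ≤ M := h1
      _ = M * Real.exp (c / 2 * G0) * Real.exp (-(c / 2 * G0)) := by
          rw [mul_assoc, ← Real.exp_add, add_neg_cancel, Real.exp_zero, mul_one]
      _ ≤ CT * Real.exp (-(c / 2 * g)) := by
          refine mul_le_mul hCTa (Real.exp_le_exp.2 ?_) (Real.exp_pos _).le (by linarith)
          have := mul_le_mul_of_nonneg_left hgG (show 0 ≤ c / 2 by positivity)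
          linarith
  have hgpos : 0 < infDist x (I t) := by rw [← hgdef]; linarith
  obtain ⟨τ1, hτ1⟩ : ∃ τ1 : ℝ, τ1 = t - S - s1 := ⟨_, rfl⟩
  have hτ1T : T1 < τ1 := by linarith
  obtain ⟨q, hq⟩ : ∃ q : ℝ, q = g + c1 * (t - S) - C1 - L0 - L1 := ⟨_, rfl⟩
  have hqτ : ∀ τ, q - c1 * τ = g + c1 * (t - S - τ) - C1 - L0 - L1 := by
    intro τ; rw [hq]; ring
  -- distance estimates
  have hclose : ∀ τ ∈ Icc T1 τ1, ∀ y, ‖y - x‖ ≤ g + c1 * (t - S - τ) - C1 - L0 →
      v τ y ≤ θ := by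
    intro τ hτ y h2
    have hs : s1 ≤ t - S - τ := by have := hτ.2; linarith
    refine hbelow τ (by linarith [hτ.1]) y ?_
    rw [le_infDist (hne _ (by linarith [hτ.1]))]
    intro p hp
    have h4 := far hE (t := τ + S) (s := t - S - τ) (x := x) (p := p) (by linarith [hτ.1])
      (by linarith) (hsq _ hs) (by
        rw [show τ + S + (t - S - τ) = t by ring]; exact hgpos) hp
    rw [show τ + S + (t - S - τ) = t by ring, ← hgdef] at h4
    have h5 := quad (t - S - τ) (by linarith)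
    have h6 : dist x p ≤ dist x y + dist y p := dist_triangle _ _ _
    have h7 : dist x y = ‖y - x‖ := by rw [dist_comm, dist_eq_norm]
    linarith
  have hinit : ∀ y, g + c1 * (t - S - T1) - C1 - C - ‖y - x‖ ≤ infDist y U := by
    intro y
    rw [le_infDist hUne]
    intro z hz
    obtain ⟨p, hp, hzp⟩ := hUI z hz
    have hs : s1 ≤ t - t3 := by linarith
    have h4 := far hE (t := t3) (s := t - t3) (x := x) (p := p) le_rfl
      (by linarith) (hsq _ hs) (by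
        rw [show t3 + (t - t3) = t by ring]; exact hgpos) hp
    rw [show t3 + (t - t3) = t by ring, ← hgdef] at h4
    have h5 := quad (t - t3) (by linarith)
    have h6 : dist x p ≤ dist x y + dist y z + dist z p := dist_triangle4 _ _ _ _
    have h7 : dist x y = ‖y - x‖ := by rw [dist_comm, dist_eq_norm]
    have h8 : c1 * (t - S - T1) ≤ c1 * (t - t3) :=
      mul_le_mul_of_nonneg_left (by linarith) hc1.le
    linarith
  -- stage 1
  have st1 := stage1 rad mp0 hN hp hyp.th1 hK.le hF hFf hv hM1 hvM (a := a) (q := q) (τ0 := T1)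
    (τ1 := τ1) x ha0 haN hT1p hτ1T
    (by
      intro τ hτ
      rw [hqτ]
      have h1 : 0 ≤ c1 * (t - S - τ) := mul_nonneg hc1.le (by have := hτ.2; linarith)
      have h2 : r1 ≤ g + c1 * (t - S - τ) - C1 - L0 - L1 - Z2 := by linarith
      exact ⟨by linarith, hr1e _ h2⟩)
    (by
      intro τ hτ y hZ
      rw [hqτ] at hZ ⊢
      have hτp : 0 < τ := by linarith [hτ.1]
      have hnr := norm_le_rad a x y
      rcases le_or_gt ‖y - x‖ (g + c1 * (t - S - τ) - C1 - L0) with h2 | h2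
      · have h3 := hclose τ hτ y h2
        have h4 : 0 ≤ M * (√(a ^ 2 + ‖y - x‖ ^ 2) -
            (g + c1 * (t - S - τ) - C1 - L0 - L1)) := mul_nonneg (by linarith) (by linarith)
        linarith
      · have h3 := (abs_le.1 (hvM τ hτp y)).2
        have h4 : M * 1 ≤ M * (√(a ^ 2 + ‖y - x‖ ^ 2) -
            (g + c1 * (t - S - τ) - C1 - L0 - L1)) :=
          mul_le_mul_of_nonneg_left (by linarith) (by linarith)
        have h5 := hyp.th0
        linarith)
    (by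
      intro y hZ
      rw [hqτ] at hZ ⊢
      obtain ⟨Z, hZe⟩ : ∃ Z : ℝ, Z = g + c1 * (t - S - T1) - C1 - L0 - L1 -
        √(a ^ 2 + ‖y - x‖ ^ 2) := ⟨_, rfl⟩
      rw [← hZe] at hZ ⊢
      refine le_trans ?_ (hp.low Z hZ)
      have hnr := norm_le_rad a x y
      have h1 : Z + (L0 + L1 - C) ≤ infDist y U := by
        have := hinit y
        linarith
      refine (hT1bd y).trans ?_
      calc A0 * Real.exp (-(Lm * infDist y U))
          ≤ A0 * Real.exp (-(Lm * (L0 + L1 - C)) + -(Lm * Z)) := by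
            refine mul_le_mul_of_nonneg_left (Real.exp_le_exp.2 ?_) hA0.le
            have := mul_le_mul_of_nonneg_left h1 hLm.le
            linarith
        _ = A0 * Real.exp (-(Lm * (L0 + L1 - C))) * Real.exp (-(Lm * Z)) := by
            rw [Real.exp_add, mul_assoc]
        _ ≤ Cx⁻¹ * Real.exp (-(Lm * Z)) :=
            mul_le_mul_of_nonneg_right hL1e (Real.exp_pos _).le)
  -- the bound at time `τ1`
  have hτ1p : 0 < τ1 := by linarith
  have hbd1 : ∀ y, v τ1 y ≤ A' * Real.exp (-(c / 2 * (g - √(a ^ 2 + ‖y - x‖ ^ 2)))) := by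
    intro y
    obtain ⟨Z, hZe⟩ : ∃ Z : ℝ, Z = q - c1 * τ1 - √(a ^ 2 + ‖y - x‖ ^ 2) := ⟨_, rfl⟩
    have hZe' : Z = g + c1 * s1 - C1 - L0 - L1 - √(a ^ 2 + ‖y - x‖ ^ 2) := by
      rw [hZe, hqτ, hτ1]
      ring
    have h1 : v τ1 y ≤ max Cx M * Real.exp (-(c / 2 * Z)) := by
      rcases le_total 0 Z with h | h
      · have h2 := st1 τ1 ⟨hτ1T.le, le_rfl⟩ y (by rw [← hZe]; exact h)
        rw [← hZe] at h2
        refine (h2.trans (hp.up Z h)).trans ?_
        exact mul_le_mul_of_nonneg_right (le_max_left _ _) (Real.exp_pos _).le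
      · have h2 := (abs_le.1 (hvM τ1 hτ1p y)).2
        have h3 : 1 ≤ Real.exp (-(c / 2 * Z)) := by
          refine Real.one_le_exp ?_
          have := mul_nonneg (show 0 ≤ c / 2 by positivity) (neg_nonneg.2 h)
          linarith
        calc v τ1 y ≤ M * 1 := by linarith
          _ ≤ max Cx M * Real.exp (-(c / 2 * Z)) :=
              mul_le_mul (le_max_right _ _) h3 zero_le_one
                ((by linarith : (0 : ℝ) ≤ M).trans (le_max_right _ _))
    refine h1.trans ?_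
    rw [hA', mul_assoc, ← Real.exp_add]
    refine mul_le_mul_of_nonneg_left (Real.exp_le_exp.2 ?_)
      ((by linarith : (0 : ℝ) ≤ M).trans (le_max_right _ _))
    rw [hZe']
    have : 0 ≤ c / 2 * (c1 * s1) := by positivity
    linarith
  -- stage 2
  obtain ⟨A2, hA2⟩ : ∃ A2 : ℝ, A2 = A' * Real.exp (-(c / 2 * g) - α2 * τ1) := ⟨_, rfl⟩
  have hA20 : 0 ≤ A2 := by rw [hA2]; positivity
  have hform2 : ∀ τ r : ℝ, A2 * Real.exp (α2 * τ + c / 2 * r)
      = A' * Real.exp (-(c / 2 * g) + α2 * (τ - τ1) + c / 2 * r) := by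
    intro τ r
    rw [hA2, mul_assoc, ← Real.exp_add]
    congr 2
    ring
  have hF0 : F 0 = 0 := by rw [hFf 0 ⟨le_rfl, zero_le_one⟩, hyp.toLip.f0]
  have st2 := bar rad mp0 hN (F := F) (c := c) (m := K) (a := a) (α := α2) (A := A2) (M := M)
    (τ0 := τ1) (τ1 := t) (v := v) x hc hK.le ha0 hA20 (le_of_eq hα2.symm) hv hvM hτ1p
    (by linarith)
    (by
      intro s hs
      have h1 := (abs_le.1 (hF s 0)).2
      rw [hF0, sub_zero, sub_zero, abs_of_pos hs] at h1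
      exact h1)
    (by
      intro y
      rw [hform2, sub_self, mul_zero, add_zero]
      refine (hbd1 y).trans (le_of_eq ?_)
      congr 2
      ring)
  have h1 := st2 t ⟨by linarith, le_rfl⟩ x
  rw [hform2] at h1
  have h2 : √(a ^ 2 + ‖x - x‖ ^ 2) = a := by
    rw [sub_self, norm_zero, zero_pow two_ne_zero, add_zero]
    exact Real.sqrt_sq ha0.le
  rw [h2] at h1
  refine h1.trans ?_
  have h3 := mul_le_mul_of_nonneg_right hCTb (Real.exp_pos (-(c / 2 * g))).le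
  refine le_trans (le_of_eq ?_) h3
  rw [mul_assoc, ← Real.exp_add, hτ1]
  congr 2
  ring

end Pool.Agent.H27.RD
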