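import Pool.Agent.H91.RD.Targets2

/-! # MP_609556_an, module FRD: exponential decay of a front towards a stable state. helper27 -/

set_option autoImplicit false

open MeasureTheory Set Filter Topology Metric

namespace Pool.Agent.H27.RD

open Pool.Agent.H91.RD

theorem frd : T_FRD := by
  intro f φ a b c μ η0 hW hμ hη hf
  have hc := hW.cpos
  have hd : Differentiable ℝ φ := hW.c2.differentiable (by norm_num)
  have hd1 : ContDiff ℝ 1 (deriv φ) := by
    have h := hW.c2
    rw [show (2 : WithTop ℕ∞) = 1 + 1 by norm_num, contDiff_succ_iff_deriv] at h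
    exact h.2.2
  have hdd : Differentiable ℝ (deriv φ) := hd1.differentiable (by norm_num)
  have hanti : Antitone φ := antitone_of_deriv_nonpos hd fun z => (hW.dec z).le
  have hb : ∀ z, φ z ≤ b := fun z => ge_of_tendsto hW.left (by
    filter_upwards [eventually_le_atBot z] with z' hz'
    exact hanti hz')
  have ha : ∀ z, a ≤ φ z := fun z => le_of_tendsto hW.right (by
    filter_upwards [eventually_ge_atTop z] with z' hz'
    exact hanti hz')
  obtain ⟨z1, hz1⟩ := (hW.right.eventually_le_const (show a < a + η0 by linarith)).exists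
  have hmem : ∀ z ≥ z1, φ z ∈ Icc a (a + η0) := fun z hz => ⟨ha z, (hanti hz).trans hz1⟩
  -- the function `v' + c v` is monotone on `[z1, ∞)`
  have hw : MonotoneOn (fun z => deriv φ z + c * (φ z - a)) (Ici z1) := by
    refine monotoneOn_of_deriv_nonneg (convex_Ici z1) ?_ ?_ ?_
    · exact (hdd.continuous.add (continuous_const.mul
        (hd.continuous.sub continuous_const))).continuousOn
    · exact (hdd.add ((hd.sub_const a).const_mul c)).differentiableOn
    · intro z hz
      rw [interior_Ici] at hz
      have e : deriv (fun z => deriv φ z + c * (φ z - a)) z =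
          deriv (deriv φ) z + c * deriv φ z :=
        ((hdd z).hasDerivAt.add (((hd z).hasDerivAt.sub_const a).const_mul c)).deriv
      rw [e]
      have h1 := hW.eqn z
      have h2 := hf (φ z) (hmem z (le_of_lt hz))
      have h3 : 0 ≤ μ * (φ z - a) := mul_nonneg hμ.le (by linarith [ha z])
      linarith
  have hw0 : ∀ z ≥ z1, deriv φ z + c * (φ z - a) ≤ 0 := by
    intro z hz
    have ht : Tendsto (fun y => c * (φ y - a)) atTop (𝓝 0) := by
      have := (hW.right.sub_const a).const_mul c
      rwa [sub_self, mul_zero] at this
    refine ge_of_tendsto ht ?_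
    filter_upwards [eventually_ge_atTop z] with y hy
    have h1 := hw (show z ∈ Ici z1 from hz) (show y ∈ Ici z1 from le_trans hz hy) hy
    have h2 := (hW.dec y).le
    simp only at h1
    linarith
  have hg : AntitoneOn (fun z => (φ z - a) * Real.exp (c * z)) (Ici z1) := by
    refine antitoneOn_of_deriv_nonpos (convex_Ici z1) ?_ ?_ ?_
    · exact ((hd.continuous.sub continuous_const).mul (by fun_prop)).continuousOn
    · exact ((hd.sub_const a).mul (by fun_prop)).differentiableOn
    · intro z hz
      rw [interior_Ici] at hz
      have e1 : HasDerivAt (fun z => Real.exp (c * z)) (Real.exp (c * z) * c) z := by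
        have := ((hasDerivAt_id z).const_mul c).exp
        simpa using this
      have e : deriv (fun z => (φ z - a) * Real.exp (c * z)) z =
          deriv φ z * Real.exp (c * z) + (φ z - a) * (Real.exp (c * z) * c) :=
        (((hd z).hasDerivAt.sub_const a).mul e1).deriv
      rw [e]
      have h1 := mul_nonpos_of_nonpos_of_nonneg (hw0 z (le_of_lt hz)) (Real.exp_pos (c * z)).le
      linarith
  refine ⟨(b - a) * Real.exp (c * z1), fun z => ?_⟩
  have hba : 0 ≤ b - a := by linarith [ha z1, hb z1]
  rw [mul_assoc, ← Real.exp_add]
  rcases le_or_gt z1 z with h | h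
  · have h1 := hg (show z1 ∈ Ici z1 from self_mem_Ici) (show z ∈ Ici z1 from h) h
    simp only at h1
    have h2 : (φ z1 - a) * Real.exp (c * z1) ≤ (b - a) * Real.exp (c * z1) :=
      mul_le_mul_of_nonneg_right (by linarith [hb z1]) (Real.exp_pos _).le
    have h3 := mul_le_mul_of_nonneg_right (h1.trans h2) (Real.exp_pos (-(c * z))).le
    rw [mul_assoc, mul_assoc, ← Real.exp_add, ← Real.exp_add, add_neg_cancel, Real.exp_zero,
      mul_one] at h3
    exact h3
  · have h1 : 1 ≤ Real.exp (c * z1 + -(c * z)) := by
      refine Real.one_le_exp ?_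
      have := mul_le_mul_of_nonneg_left h.le hc.le
      linarith
    calc φ z - a ≤ b - a := by linarith [hb z]
      _ = (b - a) * 1 := (mul_one _).symm
      _ ≤ _ := mul_le_mul_of_nonneg_left h1 hba

end Pool.Agent.H27.RD
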