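import Pool.Agent.H73.RD.P1
import Pool.Agent.H91.RD.Targets2

/-! # MP_609556_an, module ST0: short times. helper27
(The lemma `radL_exp` is due to helper67.) -/

set_option autoImplicit false

open MeasureTheory Set Filter Topology Metric

namespace Pool.Agent.H27.RD

open Pool.Agent.H91.RD Pool.Agent.H73.RD

/-- radial Laplacian of an exponential -/
theorem radL_exp (N : ℕ) (hN : 1 ≤ N) (a c X r : ℝ) (hc : 0 < c) (ha : 0 < a) (hr : a ≤ r)
    (B β : ℝ) (hB : 0 ≤ B) (hX : X = B * Real.exp (β + c / 2 * r)) :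
    radL N a (fun ρ => B * Real.exp (β + c / 2 * ρ)) r ≤ (c ^ 2 / 4 + c * N / (2 * a)) * X := by
  have h1 : ∀ (B : ℝ), deriv (fun ρ => B * Real.exp (β + c / 2 * ρ))
      = fun ρ => (B * (c / 2)) * Real.exp (β + c / 2 * ρ) := by
    intro B
    funext ρ
    have h2 : HasDerivAt (fun ρ : ℝ => β + c / 2 * ρ) (c / 2) ρ := by
      have := ((hasDerivAt_id ρ).const_mul (c / 2)).const_add β
      rw [mul_one] at this
      exact this
    have h3 := (h2.exp).const_mul B
    rw [h3.deriv]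
    ring
  unfold radL
  rw [h1 B, h1 (B * (c / 2))]
  simp only
  have hX0 : 0 ≤ X := by rw [hX]; positivity
  have e1 : B * (c / 2) * (c / 2) * Real.exp (β + c / 2 * r) = c ^ 2 / 4 * X := by
    rw [hX]; ring
  have e2 : B * (c / 2) * Real.exp (β + c / 2 * r) = c / 2 * X := by
    rw [hX]; ring
  rw [e1, e2]
  have hr0 : 0 < r := by linarith
  have hN1 : (0 : ℝ) ≤ N - 1 := by
    have : (1 : ℝ) ≤ N := by exact_mod_cast hN
    linarith
  have h4 : c ^ 2 / 4 * X * (1 - a ^ 2 / r ^ 2) ≤ c ^ 2 / 4 * X := by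
    have h5 : 0 ≤ a ^ 2 / r ^ 2 := by positivity
    have h6 : 0 ≤ c ^ 2 / 4 * X := by positivity
    nlinarith
  have h5 : ((N : ℝ) - 1) / r + a ^ 2 / r ^ 3 ≤ N / a := by
    have h6 : ((N : ℝ) - 1) / r ≤ (N - 1) / a := div_le_div_of_nonneg_left hN1 ha hr
    have h7 : a ^ 2 / r ^ 3 ≤ 1 / a := by
      rw [div_le_div_iff₀ (by positivity) ha, one_mul]
      have : a ^ 3 ≤ r ^ 3 := pow_le_pow_left₀ ha.le hr 3
      calc a ^ 2 * a = a ^ 3 := by ring
        _ ≤ r ^ 3 := this
    have h8 : ((N : ℝ) - 1) / a + 1 / a = N / a := by ring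
    linarith
  have h6 : c / 2 * X * (((N : ℝ) - 1) / r + a ^ 2 / r ^ 3) ≤ c / 2 * X * (N / a) :=
    mul_le_mul_of_nonneg_left h5 (by positivity)
  have h7 : c / 2 * X * (N / a) = c * N / (2 * a) * X := by
    field_simp
  linarith

theorem st0 (hM : T_MP0) (hR : T_RAD) : T_ST0 := by
  intro N K hN hK
  refine ⟨K + 1 + N, by positivity, ?_⟩
  intro v x0 R σ hσ hv1 hvb hcont hC2 hdt heq h0 t ht x
  obtain ⟨A, hA⟩ : ∃ A : ℝ, A = K + 1 + N := ⟨_, rfl⟩
  rw [← hA]
  have hA0 : 0 < A := by rw [hA]; positivity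
  obtain ⟨r, hr⟩ : ∃ r : E N → ℝ, r = fun y => √(1 ^ 2 + ‖y - x0‖ ^ 2) := ⟨_, rfl⟩
  have hr1 : ∀ y, 1 ≤ r y := fun y => by rw [hr]; exact le_rad x0 y
  have hrc : Continuous r := by rw [hr]; exact continuous_rad 1 x0
  have key := hM N K 0 σ 1 (fun τ y => 1 * Real.exp ((-R + A * τ) + 2 / 2 * r y) - v τ y) hK.le hσ
    ?_ ?_ ?_ ?_ t ht x
  · have h1 : r x ≤ 1 + dist x x0 := by
      rw [hr, dist_eq_norm]
      exact rad_le zero_le_one x0 x
    have h2 : Real.exp ((-R + A * t) + 2 / 2 * r x) ≤ Real.exp (1 + dist x x0 - R + A * t) := by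
      refine Real.exp_le_exp.2 ?_
      linarith
    simp only [one_mul] at key
    linarith
  · refine ContinuousOn.sub ?_ hcont
    have h2 : Continuous (fun p : ℝ × E N => r p.2) := hrc.comp continuous_snd
    have h1 : Continuous (fun p : ℝ × E N => 1 * Real.exp ((-R + A * p.1) + 2 / 2 * r p.2)) := by
      fun_prop
    exact h1.continuousOn
  · intro τ hτ y
    have h1 := hv1 τ hτ y
    have h2 : 0 ≤ 1 * Real.exp ((-R + A * τ) + 2 / 2 * r y) := by positivity
    linarith
  · intro τ hτ y hz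
    have hS2 : ContDiff ℝ 2 (fun ρ => 1 * Real.exp ((-R + A * τ) + 2 / 2 * ρ)) := by fun_prop
    have hSr := hR N 1 x0 (fun ρ => 1 * Real.exp ((-R + A * τ) + 2 / 2 * ρ)) one_pos hS2
    have hd1 := hdt τ hτ y
    have hd2 : HasDerivAt (fun s => 1 * Real.exp ((-R + A * s) + 2 / 2 * r y))
        (A * (1 * Real.exp ((-R + A * τ) + 2 / 2 * r y))) τ := by
      have h2 : HasDerivAt (fun s : ℝ => (-R + A * s) + 2 / 2 * r y) A τ := by
        have := (((hasDerivAt_id τ).const_mul A).const_add (-R)).add_const (2 / 2 * r y)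
        rw [mul_one] at this
        exact this
      have h3 := (h2.exp).const_mul 1
      have h4 : 1 * (Real.exp ((-R + A * τ) + 2 / 2 * r y) * A) =
          A * (1 * Real.exp ((-R + A * τ) + 2 / 2 * r y)) := by ring
      rw [h4] at h3
      exact h3
    refine ⟨?_, ?_, ?_⟩
    · have h := hSr.1.contDiffAt (x := y)
      rw [hr]
      exact h.sub (hC2 _ hτ).contDiffAt
    · exact hd2.differentiableAt.sub hd1
    · have e0 : Laplacian.laplacian
          (fun y => 1 * Real.exp ((-R + A * τ) + 2 / 2 * r y) - v τ y) y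
          = radL N 1 (fun ρ => 1 * Real.exp ((-R + A * τ) + 2 / 2 * ρ)) (r y)
            - Laplacian.laplacian (v τ) y := by
        rw [hr]
        have h := hSr.2 y
        rw [← h]
        exact lap_sub hSr.1.contDiffAt (hC2 _ hτ).contDiffAt
      rw [e0]
      have e1 : deriv (fun s => 1 * Real.exp ((-R + A * s) + 2 / 2 * r y) - v s y) τ
          = A * (1 * Real.exp ((-R + A * τ) + 2 / 2 * r y)) - deriv (fun s => v s y) τ :=
        (hd2.sub hd1.hasDerivAt).deriv
      rw [e1]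
      obtain ⟨B, hB⟩ : ∃ B : ℝ, B = 1 * Real.exp ((-R + A * τ) + 2 / 2 * r y) := ⟨_, rfl⟩
      have hB0 : 0 < B := by rw [hB]; positivity
      have h1 := radL_exp N hN 1 2 B (r y) two_pos one_pos (hr1 y) 1 (-R + A * τ) zero_le_one hB
      simp only [← hB] at hz ⊢
      have h2 := heq τ hτ y (by linarith)
      have h3 : ((2 : ℝ) ^ 2 / 4 + 2 * N / (2 * 1)) * B + K * B = A * B := by
        rw [hA]
        ring
      linarith
  · intro y
    simp only [one_mul, mul_zero, add_zero]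
    rcases le_or_gt (dist y x0) R with h | h
    · have := h0 y h
      have h2 : 0 < Real.exp (-R + 2 / 2 * r y) := Real.exp_pos _
      linarith
    · have h1 := hv1 0 ⟨le_rfl, hσ.le⟩ y
      have h2 : R ≤ r y := by
        have h3 := norm_le_rad 1 x0 y
        rw [← dist_eq_norm] at h3
        rw [hr]
        simp only
        rw [← dist_eq_norm]
        linarith
      have h3 : 1 ≤ Real.exp (-R + 2 / 2 * r y) := Real.one_le_exp (by linarith)
      linarith

end Pool.Agent.H27.RD
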